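import Pool.Agent.Y571.NX.Move

/-!
# All pairs of distinct points in dimension three
-/

set_option autoImplicit false

namespace Pool.Agent.Y571.NX

open MeasureTheory ProbabilityTheory Pool.Agent.Helper41.GF
open scoped ENNReal

section sub

attribute [local instance] mv_prob1

attribute [local instance] mv_prob2

theorem sub_iff (x y : Z3) : Sub x y ↔ mGG ∅ x ∅ y ∅ := by
  have key : ∀ ω : Str × Str, Disjoint (Set.range fun n => x + SS n ω.1)
      (Set.range fun m => y + SS m ω.2) ↔ mGP ∅ ∅ ∅ x y ω := by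
    intro ω
    rw [Set.disjoint_left]
    constructor
    · intro h
      exact ⟨fun n m hnm => h ⟨n, rfl⟩ ⟨m, hnm.symm⟩, fun n hn => hn, fun m hm => hm⟩
    · rintro h _ ⟨n, rfl⟩ ⟨m, hm⟩
      exact h.1 n m hm.symm
  constructor
  · rintro ⟨π, h1, h2, h3, h4⟩
    exact ⟨π, h1, h2, h3, h4.mono fun ω hω => (key ω).1 hω⟩
  · rintro ⟨π, h1, h2, h3, h4⟩
    exact ⟨π, h1, h2, h3, h4.mono fun ω hω => (key ω).2 hω⟩

theorem Sub.symm {x y : Z3} (h : Sub x y) : Sub y x := by
  rw [sub_iff] at h ⊢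
  exact mGG_symm h

theorem Sub.add {x y : Z3} (h : Sub x y) (z : Z3) : Sub (x + z) (y + z) := by
  rw [sub_iff] at h ⊢
  obtain ⟨π, h1, h2, h3, h4⟩ := h
  refine ⟨π, h1, h2, h3, h4.mono fun ω hω => ⟨fun n m hnm => hω.1 n m ?_, fun n hn => hn,
    fun m hm => hm⟩⟩
  have e1 : x + z + SS n ω.1 = (x + SS n ω.1) + z := by abel
  have e2 : y + z + SS m ω.2 = (y + SS m ω.2) + z := by abel
  rw [e1, e2] at hnm
  exact add_right_cancel hnm

/-- A permutation of the directions of a step. -/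
def pst (σ : Equiv.Perm (Fin 3)) (s : Stp) : Stp := (σ.symm s.1, s.2)

theorem vec_pst (σ : Equiv.Perm (Fin 3)) (s : Stp) : vec (pst σ s) = vec s ∘ σ := by
  obtain ⟨i, b⟩ := s
  funext j
  show (Pi.single (σ.symm i) (if b then 1 else -1) : Z3) j =
    (Pi.single i (if b then 1 else -1) : Z3) (σ j)
  by_cases h : σ j = i
  · have h' : j = σ.symm i := by rw [← h, Equiv.symm_apply_apply]
    rw [h', Equiv.apply_symm_apply, Pi.single_eq_same, Pi.single_eq_same]
  · have h' : j ≠ σ.symm i := by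
      intro h2
      apply h
      rw [h2, Equiv.apply_symm_apply]
    rw [Pi.single_eq_of_ne h', Pi.single_eq_of_ne h]

theorem SS_pst (σ : Equiv.Perm (Fin 3)) (n : ℕ) (u : Str) :
    SS n (fun k => pst σ (u k)) = SS n u ∘ σ := by
  unfold SS
  funext j
  rw [Function.comp_apply, Finset.sum_apply, Finset.sum_apply]
  apply Finset.sum_congr rfl
  intro i _
  rw [vec_pst]
  rfl

theorem map_pst (σ : Equiv.Perm (Fin 3)) : PP.map (fun (u : Str) k => pst σ (u k)) = PP := by
  have hg : Measurable (pst σ) := measurable_of_finite _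
  have h1 : stpLaw.map (pst σ) = stpLaw := by
    apply Measure.ext_of_singleton
    intro s
    rw [Measure.map_apply hg (MeasurableSet.singleton s)]
    have e : pst σ ⁻¹' {s} = {(σ s.1, s.2)} := by
      ext t
      rw [Set.mem_preimage, Set.mem_singleton_iff, Set.mem_singleton_iff]
      obtain ⟨i, b⟩ := t
      obtain ⟨j, b'⟩ := s
      show (σ.symm i, b) = (j, b') ↔ (i, b) = (σ j, b')
      rw [Prod.mk.injEq, Prod.mk.injEq, Equiv.symm_apply_eq]
    rw [e, mstpLaw_singleton, mstpLaw_singleton]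
  unfold PP
  rw [Measure.infinitePi_map_pi _ (fun _ => hg)]
  congr 1
  funext _
  exact h1

theorem perm : S_PERM := by
  intro σ x y h
  rw [sub_iff] at h ⊢
  obtain ⟨π, h1, h2, h3, h4⟩ := h
  have hg : Measurable (fun (u : Str) k => pst σ (u k)) :=
    measurable_pi_lambda _ fun k => (measurable_of_finite (pst σ)).comp (measurable_pi_apply k)
  have hF : Measurable (fun ω : Str × Str =>
      ((fun k => pst σ (ω.1 k) : Str), (fun k => pst σ (ω.2 k) : Str))) :=
    (hg.comp measurable_fst).prodMk (hg.comp measurable_snd)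
  refine ⟨π.map (fun ω : Str × Str =>
    ((fun k => pst σ (ω.1 k) : Str), (fun k => pst σ (ω.2 k) : Str))), ?_, ?_, ?_, ?_⟩
  · rw [Measure.map_map measurable_fst hF]
    have e : Prod.fst ∘ (fun ω : Str × Str =>
      ((fun k => pst σ (ω.1 k) : Str), (fun k => pst σ (ω.2 k) : Str))) =
      (fun (u : Str) k => pst σ (u k)) ∘ Prod.fst := rfl
    rw [e, ← Measure.map_map hg measurable_fst]
    conv_rhs => rw [← map_pst σ]
    exact Measure.map_mono h1 hg
  · rw [Measure.map_map measurable_snd hF]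
    have e : Prod.snd ∘ (fun ω : Str × Str =>
      ((fun k => pst σ (ω.1 k) : Str), (fun k => pst σ (ω.2 k) : Str))) =
      (fun (u : Str) k => pst σ (u k)) ∘ Prod.snd := rfl
    rw [e, ← Measure.map_map hg measurable_snd]
    conv_rhs => rw [← map_pst σ]
    exact Measure.map_mono h2 hg
  · rw [Measure.map_apply hF MeasurableSet.univ]
    exact h3
  · rw [ae_map_iff hF.aemeasurable (mGP_meas _ _ _ _ _)]
    filter_upwards [h4] with ω hω
    refine ⟨fun n m hnm => hω.1 n m ?_, fun n hn => hn, fun m hm => hm⟩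
    simp only at hnm
    rw [SS_pst, SS_pst] at hnm
    have e : ∀ (x z : Z3), x ∘ σ + z ∘ σ = (x + z) ∘ σ := fun x z => rfl
    rw [e, e] at hnm
    funext j
    have := congrFun hnm (σ.symm j)
    simpa using this

end sub

/-! ### periodic paths -/

section path
variable (s N : Fin 3 → ℤ)

/-- Progress in the coordinates during one period. -/
def prg : Fin 3 → ℤ → ℤ :=
  ![fun i => min i (N 0), fun i => min (max (i - N 0) 0) (N 1), fun i => max (i - N 0 - N 1) 0]

theorem prg0 (i : ℤ) : prg N 0 i = min i (N 0) := rfl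
theorem prg1 (i : ℤ) : prg N 1 i = min (max (i - N 0) 0) (N 1) := rfl
theorem prg2 (i : ℤ) : prg N 2 i = max (i - N 0 - N 1) 0 := rfl

/-- The point with the parameters `t` (period) and `r`. -/
def pt (t r : ℤ) : Z3 := fun j => s j * (t * N j + prg N j r)

variable {N} (hN : ∀ j, 0 ≤ N j)
include hN

theorem pt_step (t r : ℤ) (h0 : 0 ≤ r) (h1 : r < N 0 + N 1 + N 2) :
    ∃ k, (r < N 0 → k = 0) ∧ pt s N t (r + 1) = pt s N t r + Pi.single k (s k) := by
  have key : ∀ k : Fin 3, (∀ j, prg N j (r + 1) = prg N j r + (Pi.single k 1 : Z3) j) →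
      pt s N t (r + 1) = pt s N t r + Pi.single k (s k) := by
    intro k hk
    funext j
    show s j * (t * N j + prg N j (r + 1)) = s j * (t * N j + prg N j r) +
      (Pi.single k (s k) : Z3) j
    rw [hk j]
    by_cases hjk : j = k
    · subst hjk; rw [Pi.single_eq_same, Pi.single_eq_same]; ring
    · rw [Pi.single_eq_of_ne hjk, Pi.single_eq_of_ne hjk]; ring
  have n0 := hN 0
  have n1 := hN 1
  have n2 := hN 2
  rcases lt_or_ge r (N 0) with h | h
  · refine ⟨0, fun _ => rfl, key 0 fun j => ?_⟩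
    fin_cases j
    · show prg N 0 (r + 1) = prg N 0 r + 1
      rw [prg0, prg0]; omega
    · show prg N 1 (r + 1) = prg N 1 r + 0
      rw [prg1, prg1]; omega
    · show prg N 2 (r + 1) = prg N 2 r + 0
      rw [prg2, prg2]; omega
  · rcases lt_or_ge r (N 0 + N 1) with h' | h'
    · refine ⟨1, fun h2 => absurd h2 (not_lt.2 h), key 1 fun j => ?_⟩
      fin_cases j
      · show prg N 0 (r + 1) = prg N 0 r + 0
        rw [prg0, prg0]; omega
      · show prg N 1 (r + 1) = prg N 1 r + 1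
        rw [prg1, prg1]; omega
      · show prg N 2 (r + 1) = prg N 2 r + 0
        rw [prg2, prg2]; omega
    · refine ⟨2, fun h2 => absurd h2 (not_lt.2 h), key 2 fun j => ?_⟩
      fin_cases j
      · show prg N 0 (r + 1) = prg N 0 r + 0
        rw [prg0, prg0]; omega
      · show prg N 1 (r + 1) = prg N 1 r + 0
        rw [prg1, prg1]; omega
      · show prg N 2 (r + 1) = prg N 2 r + 1
        rw [prg2, prg2]; omega

theorem pt_wrap (t : ℤ) : pt s N t (N 0 + N 1 + N 2) = pt s N (t + 1) 0 := by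
  have n0 := hN 0
  have n1 := hN 1
  have n2 := hN 2
  funext j
  show s j * (t * N j + prg N j (N 0 + N 1 + N 2)) = s j * ((t + 1) * N j + prg N j 0)
  have h1 : prg N j (N 0 + N 1 + N 2) = N j + prg N j 0 := by
    fin_cases j
    · show prg N 0 _ = N 0 + prg N 0 0
      rw [prg0, prg0]; omega
    · show prg N 1 _ = N 1 + prg N 1 0
      rw [prg1, prg1]; omega
    · show prg N 2 _ = N 2 + prg N 2 0
      rw [prg2, prg2]; omega
  rw [h1]
  ring

theorem pt_sum (hs : ∀ j, s j * s j = 1) (t r : ℤ) (h0 : 0 ≤ r) (h1 : r < N 0 + N 1 + N 2) :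
    s 0 * pt s N t r 0 + s 1 * pt s N t r 1 + s 2 * pt s N t r 2 =
      (N 0 + N 1 + N 2) * t + r := by
  have n0 := hN 0
  have n1 := hN 1
  have n2 := hN 2
  show s 0 * (s 0 * (t * N 0 + prg N 0 r)) + s 1 * (s 1 * (t * N 1 + prg N 1 r)) +
    s 2 * (s 2 * (t * N 2 + prg N 2 r)) = _
  rw [← mul_assoc, ← mul_assoc, ← mul_assoc, hs, hs, hs, prg0, prg1, prg2]
  have : min r (N 0) + min (max (r - N 0) 0) (N 1) + max (r - N 0 - N 1) 0 = r := by omega
  linear_combination this

end path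

/-- A periodic simple path which begins with a step in direction `0`. -/
theorem periodic (w : Z3) (hw : w 0 ≠ 0) : ∃ (β : ℤ → Z3) (r : ℤ), 0 < r ∧
    Function.Injective β ∧ (∀ i, ∃ c, β (i + 1) = β i + vec c) ∧
    (∀ i, ∃ c, β i = β (i + 1) + vec c) ∧ β 0 = 0 ∧ β 1 = Pi.single 0 (Int.sign (w 0)) ∧
    ∀ i, β (i + r) = β i + w := by
  obtain ⟨s, hs⟩ : ∃ s : Fin 3 → ℤ, s = fun k => if 0 ≤ w k then 1 else -1 := ⟨_, rfl⟩
  obtain ⟨N, hNd⟩ : ∃ N : Fin 3 → ℤ, N = fun k => |w k| := ⟨_, rfl⟩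
  have hN : ∀ k, 0 ≤ N k := fun k => by rw [hNd]; exact abs_nonneg _
  have hs1 : ∀ k, s k = 1 ∨ s k = -1 := by
    intro k; rw [hs]; simp only; split_ifs <;> simp
  have hsN : ∀ k, s k * N k = w k := by
    intro k; rw [hs, hNd]; simp only
    split_ifs with h
    · rw [abs_of_nonneg h]; ring
    · rw [abs_of_neg (by linarith)]; ring
  have hss : ∀ k, s k * s k = 1 := by
    intro k; rcases hs1 k with h | h <;> rw [h] <;> norm_num
  have hN0 : 0 < N 0 := by rw [hNd]; exact abs_pos.2 hw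
  obtain ⟨m, hm⟩ : ∃ m, m = N 0 + N 1 + N 2 := ⟨_, rfl⟩
  have hm0 : 0 < m := by
    have := hN 1
    have := hN 2
    omega
  have hr : ∀ i : ℤ, 0 ≤ i % m ∧ i % m < m := fun i =>
    ⟨Int.emod_nonneg i hm0.ne', Int.emod_lt_of_pos i hm0⟩
  have hdm : ∀ i : ℤ, m * (i / m) + i % m = i := fun i => Int.mul_ediv_add_emod i m
  obtain ⟨β, hβ⟩ : ∃ β : ℤ → Z3, β = fun i => pt s N (i / m) (i % m) := ⟨_, rfl⟩
  have hb : ∀ i, β i = pt s N (i / m) (i % m) := fun i => by rw [hβ]
  have hb' : ∀ t r, 0 ≤ r → r ≤ m → β (m * t + r) = pt s N t r := by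
    intro t r h0 h1
    rcases h1.lt_or_eq with h2 | h2
    · rw [hb]
      have e1 : (m * t + r) / m = t := by
        rw [Int.add_comm, Int.add_mul_ediv_left _ _ hm0.ne', Int.ediv_eq_zero_of_lt h0 h2, zero_add]
      have e2 : (m * t + r) % m = r := by
        rw [Int.add_comm, Int.add_mul_emod_self_left, Int.emod_eq_of_lt h0 h2]
      rw [e1, e2]
    · rw [hb, h2]
      have e1 : (m * t + m) / m = t + 1 := by
        rw [show m * t + m = m * (t + 1) by ring, Int.mul_ediv_cancel_left _ hm0.ne']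
      have e2 : (m * t + m) % m = 0 := by
        rw [show m * t + m = m * (t + 1) by ring, Int.mul_emod_right]
      rw [e1, e2, hm, pt_wrap s hN]
  have hstep : ∀ i, ∃ k, (i % m < N 0 → k = 0) ∧ β (i + 1) = β i + Pi.single k (s k) := by
    intro i
    obtain ⟨k, hk1, hk2⟩ := pt_step s hN (i / m) (i % m) (hr i).1 (by rw [← hm]; exact (hr i).2)
    refine ⟨k, hk1, ?_⟩
    rw [hb i, ← hk2, ← hb' (i / m) (i % m + 1) (by have := (hr i).1; omega)
      (by have := (hr i).2; omega)]
    congr 1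
    have := hdm i
    omega
  refine ⟨β, m, hm0, ?_, ?_, ?_, ?_, ?_, ?_⟩
  · intro i j hij
    have h1 := pt_sum s hN hss (i / m) (i % m) (hr i).1 (by rw [← hm]; exact (hr i).2)
    have h2 := pt_sum s hN hss (j / m) (j % m) (hr j).1 (by rw [← hm]; exact (hr j).2)
    rw [← hb i, ← hm, hdm i] at h1
    rw [← hb j, ← hm, hdm j] at h2
    rw [← h1, ← h2, hij]
  · intro i
    obtain ⟨k, _, hk⟩ := hstep i
    obtain ⟨c, hc⟩ := mvec_of k (s k) (hs1 k)
    exact ⟨c, by rw [hk, hc]⟩
  · intro i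
    obtain ⟨k, _, hk⟩ := hstep i
    obtain ⟨c, hc⟩ := mvec_of k (-s k) (by rcases hs1 k with h | h <;> rw [h] <;> simp)
    refine ⟨c, ?_⟩
    rw [hk, hc, Pi.single_neg]
    abel
  · have h1 := hb' 0 0 le_rfl hm0.le
    rw [mul_zero, add_zero] at h1
    rw [h1]
    funext j
    have n0 := hN 0
    have n1 := hN 1
    show s j * (0 * N j + prg N j 0) = 0
    have h2 : prg N j 0 = 0 := by
      fin_cases j
      · show prg N 0 0 = 0
        rw [prg0]; omega
      · show prg N 1 0 = 0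
        rw [prg1]; omega
      · show prg N 2 0 = 0
        rw [prg2]; omega
    rw [h2]; ring
  · obtain ⟨k, hk1, hk2⟩ := hstep 0
    have h0 : (0 : ℤ) % m = 0 := Int.zero_emod m
    have hk : k = 0 := hk1 (by rw [h0]; exact hN0)
    subst hk
    rw [zero_add] at hk2
    have h1 := hb' 0 0 le_rfl hm0.le
    rw [mul_zero, add_zero] at h1
    have h3 : pt s N 0 0 = 0 := by
      funext j
      have n0 := hN 0
      have n1 := hN 1
      show s j * (0 * N j + prg N j 0) = 0
      have h2 : prg N j 0 = 0 := by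
        fin_cases j
        · show prg N 0 0 = 0
          rw [prg0]; omega
        · show prg N 1 0 = 0
          rw [prg1]; omega
        · show prg N 2 0 = 0
          rw [prg2]; omega
      rw [h2]; ring
    rw [hk2, h1, h3, zero_add]
    congr 1
    have h4 := hsN 0
    rcases hs1 0 with h5 | h5
    · rw [h5] at h4 ⊢
      rw [← h4, one_mul, Int.sign_eq_one_of_pos hN0]
    · rw [h5] at h4 ⊢
      rw [← h4, Int.sign_eq_neg_one_of_neg (by omega)]
  · intro i
    rw [hb i, hb (i + m)]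
    have e1 : (i + m) / m = i / m + 1 := by
      rw [Int.add_ediv_of_dvd_right (dvd_refl m), Int.ediv_self hm0.ne']
    have e2 : (i + m) % m = i % m := Int.add_emod_right i m
    rw [e1, e2]
    funext j
    show s j * ((i / m + 1) * N j + prg N j (i % m)) = s j * (i / m * N j + prg N j (i % m)) + w j
    rw [← hsN j]
    ring

/-- a pair of neighbours -/
theorem exists_unit : ∃ c, Sub 0 (vec c) := by
  obtain ⟨a, b, π, h1, h2, h3, h4⟩ := subcoupling
  obtain ⟨β, D, hD, hβ0, hβD, hinj, hup, hdn, _⟩ := mpath a b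
  have hsub : Sub (β 0) (β D) := by
    rw [hβ0, hβD]
    exact ⟨π, h1, h2, h3, h4⟩
  obtain ⟨i, hi⟩ := move β D 1 hD one_pos hinj hup hdn hsub
  obtain ⟨c, hc⟩ := hup i
  rw [hc] at hi
  refine ⟨c, ?_⟩
  have := hi.add (-β i)
  rw [add_neg_cancel, add_neg_cancel_comm] at this
  exact this

theorem unit_zero : ∃ e : ℤ, (e = 1 ∨ e = -1) ∧ Sub 0 (Pi.single 0 e) := by
  obtain ⟨c, hc⟩ := exists_unit
  have h1 := perm (Equiv.swap 0 c.1) _ _ hc
  refine ⟨if c.2 then 1 else -1, by split_ifs <;> simp, ?_⟩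
  have e1 : (0 : Z3) ∘ (Equiv.swap 0 c.1) = 0 := rfl
  rw [e1] at h1
  have e2 : vec c ∘ (Equiv.swap 0 c.1) = Pi.single 0 (if c.2 then 1 else -1) := by
    rw [← vec_pst]
    show (Pi.single ((Equiv.swap 0 c.1).symm c.1) (if c.2 then 1 else -1) : Z3) = _
    rw [Equiv.symm_swap, Equiv.swap_apply_right]
  rw [e2] at h1
  exact h1

theorem both_signs (e : ℤ) (he : e = 1 ∨ e = -1) : Sub 0 (Pi.single 0 e) := by
  obtain ⟨e', he', h⟩ := unit_zero
  by_cases h1 : e = e'
  · rw [h1]; exact h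
  · have h2 : e = -e' := by omega
    have h3 := h.symm.add (-(Pi.single 0 e'))
    rw [add_neg_cancel, zero_add, ← Pi.single_neg, ← h2] at h3
    exact h3

theorem all_zero (w : Z3) (hw : w 0 ≠ 0) : Sub 0 w := by
  obtain ⟨β, r, hr, hinj, hup, hdn, h0, h1, hper⟩ := periodic w hw
  have hsgn : Int.sign (w 0) = 1 ∨ Int.sign (w 0) = -1 := by
    rcases lt_or_gt_of_ne hw with h | h
    · right; exact Int.sign_eq_neg_one_of_neg h
    · left; exact Int.sign_eq_one_of_pos h
  have hsub : Sub (β 0) (β 1) := by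
    rw [h0, h1]
    exact both_signs _ hsgn
  obtain ⟨i, hi⟩ := move β 1 r zero_le_one hr hinj hup hdn hsub
  rw [hper i] at hi
  have := hi.add (-β i)
  rw [add_neg_cancel, add_neg_cancel_comm] at this
  exact this

theorem all : S_ALL := by
  intro x y hxy
  have h1 : ∃ k, (y - x) k ≠ 0 := by
    by_contra hc
    push Not at hc
    apply hxy
    funext k
    have := hc k
    rw [Pi.sub_apply] at this
    omega
  obtain ⟨k, hk⟩ := h1
  have h2 : Sub 0 ((y - x) ∘ Equiv.swap 0 k) := by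
    apply all_zero
    show (y - x) (Equiv.swap 0 k 0) ≠ 0
    rw [Equiv.swap_apply_left]
    exact hk
  have h3 := perm (Equiv.swap 0 k) _ _ h2
  have e1 : (0 : Z3) ∘ (Equiv.swap 0 k) = 0 := rfl
  have e2 : ((y - x) ∘ Equiv.swap 0 k) ∘ Equiv.swap 0 k = y - x := by
    funext j
    simp
  rw [e1, e2] at h3
  have h4 := h3.add x
  rw [zero_add, sub_add_cancel] at h4
  exact h4

end Pool.Agent.Y571.NX
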