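import Pool.Agent.Helper41.GF.Move

/-!
# Project NX: light definitions and statements
-/

set_option autoImplicit false

namespace Pool.Agent.Y571.NX

open MeasureTheory ProbabilityTheory Pool.Agent.Helper41.GF
open scoped ENNReal

/-- There is a nonzero measure on pairs of streams of steps whose marginals are dominated by the law
of i.i.d. uniform steps and for which the paths from `x` and `y` are disjoint. -/
def Sub (x y : Z3) : Prop :=
  ∃ π : Measure (Str × Str), π.map Prod.fst ≤ PP ∧ π.map Prod.snd ≤ PP ∧ 0 < π Set.univ ∧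
    ∀ᵐ ω ∂π, Disjoint (Set.range fun n => x + SS n ω.1) (Set.range fun m => y + SS m ω.2)

/-- PERM: permutations of the coordinates. -/
def S_PERM : Prop := ∀ (σ : Equiv.Perm (Fin 3)) (x y : Z3), Sub x y → Sub (x ∘ σ) (y ∘ σ)

/-- MOVE: along a simple path one can reach a pair of points at any given distance. -/
def S_MOVE : Prop := ∀ (β : ℤ → Z3) (D m : ℤ), 0 ≤ D → 0 < m → Function.Injective β →
  (∀ i, ∃ c, β (i + 1) = β i + vec c) → (∀ i, ∃ c, β i = β (i + 1) + vec c) →
  Sub (β 0) (β D) → ∃ i, Sub (β i) (β (i + m))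

/-- all pairs of distinct points in dimension three -/
def S_ALL : Prop := ∀ x y : Z3, x ≠ y → Sub x y

/-! ### higher dimensions -/

/-- a step in direction `s.1`, forwards if `s.2` -/
def vecD {d : ℕ} (s : Fin d × Bool) : Fin d → ℤ := Pi.single s.1 (if s.2 then 1 else -1)

/-- the sum of the first `n` steps -/
def SD {d : ℕ} (n : ℕ) (u : ℕ → Fin d × Bool) : Fin d → ℤ := ∑ i ∈ Finset.range n, vecD (u i)

/-- the uniform law of one step -/
noncomputable def lawD (d : ℕ) : Measure (Fin d × Bool) :=
  (2 * (d : ℝ≥0∞))⁻¹ • Measure.count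

open Classical in
/-- the number of steps of `V` before time `n` in one of the three directions `ι j` -/
noncomputable def cnt {d : ℕ} (ι : Fin 3 → Fin d) (V : ℕ → Fin d × Bool) (n : ℕ) : ℕ :=
  ((Finset.range n).filter (fun i => (V i).1 ∈ Set.range ι)).card

open Classical in
/-- replace the steps of `V` in the directions `ι j` by the steps of `u` -/
noncomputable def mrg {d : ℕ} (ι : Fin 3 → Fin d) (V : ℕ → Fin d × Bool) (u : Str) :
    ℕ → Fin d × Bool := fun n =>
  if (V n).1 ∈ Set.range ι then (ι (u (cnt ι V n)).1, (u (cnt ι V n)).2) else V n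

/-- MERGE: the merged stream of independent streams of uniform steps consists of i.i.d. uniform
steps. -/
def S_MERGE : Prop := ∀ (d : ℕ) (ι : Fin 3 → Fin d), Function.Injective ι →
  ((Measure.infinitePi fun _ : ℕ => lawD d).prod PP).map (fun z => mrg ι z.1 z.2) =
    Measure.infinitePi fun _ : ℕ => lawD d

/-- RECA: in dimensions one and two a bounded nonnegative function which vanishes at `y` and is
harmonic everywhere else is zero. -/
def S_RECA : Prop := ∀ (d : ℕ), 1 ≤ d → d ≤ 2 → ∀ (y : Fin d → ℤ) (g : (Fin d → ℤ) → ℝ),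
  (∀ z, 0 ≤ g z ∧ g z ≤ 1) → g y = 0 →
  (∀ z, z ≠ y → g z = (2 * (d : ℝ))⁻¹ * ∑ s : Fin d × Bool, g (z + vecD s)) → ∀ z, g z = 0

end Pool.Agent.Y571.NX
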