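import Pool.Agent.Y571.NX.D
import Pool.Agent.Results.MP_e4a9a7_pr.FullAnswer

/-!
# Project NX: statements of the parts

Simple random walks on `ℤ ^ d` from any two distinct points can be coupled so that their paths are
disjoint with positive probability if and only if `d ≥ 3`.
-/

set_option autoImplicit false

namespace Pool.Agent.Y571.NX

open MeasureTheory ProbabilityTheory Pool.Agent.Helper41.GF
open Pool.Agent.Results.MP_e4a9a7_pr.FullAnswer
open scoped ENNReal

/-- LIFT: from three to more dimensions. -/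
def S_LIFT : Prop := ∀ (d : ℕ) (ι : Fin 3 → Fin d), Function.Injective ι →
  ∀ x y : Fin d → ℤ, (∃ μ : Measure (Str × Str), IsProbabilityMeasure μ ∧ μ.map Prod.fst = PP ∧
    μ.map Prod.snd = PP ∧ 0 < μ {ω | Disjoint (Set.range fun n => (x ∘ ι) + SS n ω.1)
      (Set.range fun m => (y ∘ ι) + SS m ω.2)}) → HasAvoidingCoupling x y

/-- REC: in dimensions one and two the walk hits every point almost surely. -/
def S_REC : Prop := ∀ (d : ℕ), 1 ≤ d → d ≤ 2 → ∀ (Ω : Type) [MeasurableSpace Ω] (P : Measure Ω)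
  [IsProbabilityMeasure P] (x y : Fin d → ℤ) (X : ℕ → Ω → Fin d → ℤ), IsSRW P x X →
  ∀ᵐ ω ∂P, ∃ n, X n ω = y

/-- the final theorem -/
def S_MAIN : Prop := ∀ (d : ℕ) (x y : Fin d → ℤ), HasAvoidingCoupling x y ↔ 3 ≤ d ∧ x ≠ y

end Pool.Agent.Y571.NX
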