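import Pool.Agent.Y571.NX.All
import Pool.Agent.Y571.NX.Stm

/-!
# Project NX: assembly
-/

set_option autoImplicit false

namespace Pool.Agent.Y571.NX

open MeasureTheory ProbabilityTheory Pool.Agent.Helper41.GF
open Pool.Agent.Results.MP_e4a9a7_pr.FullAnswer
open scoped ENNReal

theorem avoiding (hl : S_LIFT) (d : ℕ) (hd : 3 ≤ d) (x y : Fin d → ℤ) (hxy : x ≠ y) :
    HasAvoidingCoupling x y := by
  obtain ⟨k, hk⟩ := Function.ne_iff.1 hxy
  let ι : Fin 3 → Fin d := fun j => Equiv.swap (Fin.castLE hd 0) k (Fin.castLE hd j)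
  have hι : Function.Injective ι :=
    (Equiv.injective _).comp (Fin.castLE_injective hd)
  have h0 : ι 0 = k := Equiv.swap_apply_left _ _
  have hne : x ∘ ι ≠ y ∘ ι := by
    intro h
    have := congrFun h 0
    simp only [Function.comp_apply, h0] at this
    exact hk this
  obtain ⟨π, h1, h2, h3, h4⟩ := all (x ∘ ι) (y ∘ ι) hne
  obtain ⟨μ, hμ1, hμ2, hμ3, hμ4⟩ := completion π h1 h2 h3 _ h4
  exact hl d ι hι x y ⟨μ, hμ1, hμ2, hμ3, hμ4⟩

theorem not_avoiding_self {d : ℕ} (x : Fin d → ℤ) : ¬ HasAvoidingCoupling x x := by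
  rintro ⟨Ω, _, P, _, X, Y, hX, hY, h⟩
  have e : {ω | Disjoint (Set.range fun n => X n ω) (Set.range fun m => Y m ω)} = ∅ := by
    rw [Set.eq_empty_iff_forall_notMem]
    intro ω hω
    exact Set.disjoint_left.1 hω ⟨0, hX.2.1 ω⟩ ⟨0, hY.2.1 ω⟩
  rw [e, measure_empty] at h
  exact lt_irrefl _ h

theorem main (hl : S_LIFT) (hr : S_REC) : S_MAIN := by
  intro d x y
  constructor
  · intro h
    have hne : x ≠ y := by
      rintro rfl
      exact not_avoiding_self x h
    refine ⟨?_, hne⟩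
    by_contra hd
    have hd1 : 1 ≤ d := by
      rcases Nat.eq_zero_or_pos d with h0 | h0
      · subst h0
        exact absurd (Subsingleton.elim x y) hne
      · exact h0
    obtain ⟨Ω, _, P, _, X, Y, hX, hY, h⟩ := h
    have h1 := hr d hd1 (by omega) Ω P x y X hX
    have h2 : P {ω | Disjoint (Set.range fun n => X n ω) (Set.range fun m => Y m ω)} = 0 := by
      refine measure_mono_null ?_ (ae_iff.1 h1)
      intro ω hω hex
      obtain ⟨n, hn⟩ := hex
      exact Set.disjoint_left.1 hω ⟨n, hn⟩ ⟨0, hY.2.1 ω⟩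
    rw [h2] at h
    exact lt_irrefl _ h
  · rintro ⟨hd, hne⟩
    exact avoiding hl d hd x y hne

end Pool.Agent.Y571.NX
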