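import Pool.Agent.Y571.NX.D
import Pool.Agent.Helper41.GF.Three

/-!
# Moving the starting points along a path
(Adapted from `Pool/Agent/Helper41/GF/Move.lean`.)
-/

set_option autoImplicit false

namespace Pool.Agent.Y571.NX

open MeasureTheory ProbabilityTheory Pool.Agent.Helper41.GF
open scoped ENNReal

section mv

attribute [local instance] mv_prob1

attribute [local instance] mv_prob2

theorem finish {B : Set Z3} (β : ℤ → Z3) (D r p q : ℤ) (hD : 0 ≤ D) (hr : 0 < r)
    (hBdef : B = β '' Set.Icc (-r) (D + r)) (hinj : Function.Injective β)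
    (hup : ∀ i, ∃ c, β (i + 1) = β i + vec c) (hdn : ∀ i, ∃ c, β i = β (i + 1) + vec c)
    (hp : p ∈ Set.Icc (-r) (D + r)) (hq : q ∈ Set.Icc (-r) (D + r)) (hpq : p < q)
    (h : mGG B (β p) {β p} (β q) {β q}) :
    ∃ (i : ℤ) (U V : Set Z3), mGG B (β i) U (β (i + r)) V := by
  obtain ⟨hp1, hp2⟩ := hp
  obtain ⟨hq1, hq2⟩ := hq
  have hmem : ∀ i, -r ≤ i → i ≤ D + r → β i ∈ B := fun i h1 h2 => by
    rw [hBdef]; exact ⟨i, ⟨h1, h2⟩, rfl⟩
  -- first walk goes down from p to i0
  have hX : ∀ i0, -r ≤ i0 → i0 ≤ p → mGG B (β i0) (β '' Set.Icc i0 p) (β q) {β q} := by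
    intro i0 h1 h2
    have h3 := mGG_path (fun l : ℕ => β (p - l)) (by simpa using h) (p - i0).toNat
      (fun l _ => by
        obtain ⟨c, hc⟩ := hup (p - (l + 1 : ℕ))
        refine ⟨c, ?_⟩
        have e : p - (l + 1 : ℕ) + 1 = p - l := by push_cast; ring
        rw [e] at hc
        exact hc)
      (fun l hl => hmem _ (by omega) (by omega))
      (fun l hl hc => by
        have := hinj (Set.mem_singleton_iff.1 hc)
        omega)
    have e : p - ((p - i0).toNat : ℤ) = i0 := by omega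
    simp only [e] at h3
    refine mGG_mono h3 ?_
    rintro z (hz | ⟨l, hl, rfl⟩)
    · rw [Set.mem_singleton_iff] at hz
      subst hz
      exact ⟨p, ⟨h2, le_rfl⟩, rfl⟩
    · have hl' := Set.mem_Iic.1 hl
      exact ⟨p - l, ⟨by omega, by omega⟩, rfl⟩
  rcases le_or_gt (p + r) q with hc | hc
  · -- far apart: second walk goes down from q to p + r
    refine ⟨p, ?_⟩
    · have h1 := mGG_symm (hX p hp1 le_rfl)
      have h3 := mGG_path (fun l : ℕ => β (q - l))
        (by simpa only [Nat.cast_zero, sub_zero] using h1) (q - (p + r)).toNat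
        (fun l _ => by
          obtain ⟨c, hc⟩ := hup (q - (l + 1 : ℕ))
          refine ⟨c, ?_⟩
          have e : q - (l + 1 : ℕ) + 1 = q - l := by push_cast; ring
          rw [e] at hc
          exact hc)
        (fun l hl => hmem _ (by omega) (by omega))
        (fun l hl hc => by
          obtain ⟨j, hj, hjl⟩ := hc
          have := hinj hjl
          have := hj.2
          omega)
      have e : q - ((q - (p + r)).toNat : ℤ) = p + r := by omega
      simp only [e] at h3
      exact ⟨_, _, mGG_symm h3⟩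
  · -- close: i0 = max (-r) (q - r), second walk goes up from q to i0 + r
    set i0 := max (-r) (q - r) with hi0
    refine ⟨i0, ?_⟩
    · have h1 := mGG_symm (hX i0 (by omega) (by omega))
      have h3 := mGG_path (fun l : ℕ => β (q + l))
        (by simpa only [Nat.cast_zero, add_zero] using h1) (i0 + r - q).toNat
        (fun l _ => by
          obtain ⟨c, hc⟩ := hdn (q + l)
          refine ⟨c, ?_⟩
          have e : q + ((l + 1 : ℕ) : ℤ) = q + l + 1 := by push_cast; ring
          rw [e]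
          exact hc)
        (fun l hl => hmem _ (by omega) (by omega))
        (fun l hl hc => by
          obtain ⟨j, hj, hjl⟩ := hc
          have := hinj hjl
          have := hj.2
          omega)
      have e : q + ((i0 + r - q).toNat : ℤ) = i0 + r := by omega
      simp only [e] at h3
      exact ⟨_, _, mGG_symm h3⟩

theorem move : S_MOVE := by
  intro β D r hD hr hinj hup hdn hsub
  obtain ⟨π, h1, h2, h0, hd⟩ := hsub
  have htrans : ∀ z : Z3, ∑' n : ℕ, PP {u | SS n u = z} ≠ ∞ := transience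
  obtain ⟨a, hβ0⟩ : ∃ a, β 0 = a := ⟨_, rfl⟩
  obtain ⟨b, hβD⟩ : ∃ b, β D = b := ⟨_, rfl⟩
  rw [hβ0, hβD] at hd
  set B : Set Z3 := β '' Set.Icc (-r) (D + r) with hB
  have hBfin : B.Finite := (Set.finite_Icc _ _).image _
  have haB : a ∈ B := ⟨0, ⟨by omega, by omega⟩, hβ0⟩
  have hbB : b ∈ B := ⟨D, ⟨by omega, by omega⟩, hβD⟩
  -- last exits
  have hX : ∀ᵐ ω ∂π, ∀ᶠ n in Filter.atTop, a + SS n ω.1 ∉ B := by
    have := (Measure.absolutelyContinuous_of_le h1).ae_le (mtrans htrans B hBfin a)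
    exact ae_of_ae_map measurable_fst.aemeasurable this
  have hY : ∀ᵐ ω ∂π, ∀ᶠ n in Filter.atTop, b + SS n ω.2 ∉ B := by
    have := (Measure.absolutelyContinuous_of_le h2).ae_le (mtrans htrans B hBfin b)
    exact ae_of_ae_map measurable_snd.aemeasurable this
  let Ev : (ℕ × ℕ) × (ℤ × ℤ) → Set (Str × Str) := fun k =>
    {ω | (a + SS k.1.1 ω.1 = β k.2.1 ∧ ∀ n, k.1.1 < n → a + SS n ω.1 ∉ B) ∧
      (b + SS k.1.2 ω.2 = β k.2.2 ∧ ∀ n, k.1.2 < n → b + SS n ω.2 ∉ B) ∧
      k.2.1 ∈ Set.Icc (-r) (D + r) ∧ k.2.2 ∈ Set.Icc (-r) (D + r) ∧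
      ∀ n m, a + SS n ω.1 ≠ b + SS m ω.2}
  have hEex : ∃ k, ¬ ∀ᵐ ω ∂π, ω ∉ Ev k := by
    by_contra hcon
    push Not at hcon
    have hall : ∀ᵐ ω ∂π, ∀ k, ω ∉ Ev k := ae_all_iff.2 hcon
    have hF : ∀ᵐ ω ∂π, False := by
      filter_upwards [hall, hX, hY, hd] with ω h3 h4 h5 h6
      obtain ⟨t, ht1, ht2⟩ := mlast (X := fun n => a + SS n ω.1)
        (by simp only [mSS_zero, add_zero]; exact haB) h4
      obtain ⟨t', ht1', ht2'⟩ := mlast (X := fun n => b + SS n ω.2)
        (by simp only [mSS_zero, add_zero]; exact hbB) h5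
      obtain ⟨p, hp, hp'⟩ := ht1
      obtain ⟨q, hq, hq'⟩ := ht1'
      refine h3 ((t, t'), (p, q)) ⟨⟨hp'.symm, ht2⟩, ⟨hq'.symm, ht2'⟩, hp, hq, fun n m hnm => ?_⟩
      exact Set.disjoint_left.1 h6 ⟨n, rfl⟩ ⟨m, hnm.symm⟩
    rw [ae_iff] at hF
    simp only [not_false_eq_true, Set.ofPred_true] at hF
    exact h0.ne' hF
  obtain ⟨⟨⟨t, t'⟩, ⟨p, q⟩⟩, hk⟩ := hEex
  set E := Ev ((t, t'), (p, q)) with hE
  have hEpos : π E ≠ 0 := by
    intro hz
    apply hk
    rw [ae_iff]
    simpa using hz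
  have hEmeas : MeasurableSet E := by
    have e : E = ({ω | a + SS t ω.1 = β p} ∩ (⋂ n, ⋂ (_ : t < n),
        (fun ω : Str × Str => a + SS n ω.1) ⁻¹' Bᶜ)) ∩
        (({ω | b + SS t' ω.2 = β q} ∩ (⋂ n, ⋂ (_ : t' < n),
        (fun ω : Str × Str => b + SS n ω.2) ⁻¹' Bᶜ)) ∩
        ({_ω | p ∈ Set.Icc (-r) (D + r) ∧ q ∈ Set.Icc (-r) (D + r)} ∩
        (⋂ n, ⋂ m, {ω : Str × Str | a + SS n ω.1 = b + SS m ω.2}ᶜ))) := by
      ext ω
      simp only [hE, Ev, Set.mem_ofPred_eq, Set.mem_inter_iff, Set.mem_iInter, Set.mem_compl_iff,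
        Set.mem_preimage, ne_eq, and_assoc]
    rw [e]
    refine MeasurableSet.inter (MeasurableSet.inter ?_ ?_)
      (MeasurableSet.inter (MeasurableSet.inter ?_ ?_) (MeasurableSet.inter ?_ ?_))
    · exact mmeasX a t (mset_meas {β p})
    · exact MeasurableSet.iInter fun n => MeasurableSet.iInter fun _ => mmeasX a n (mset_meas _)
    · exact mmeasY b t' (mset_meas {β q})
    · exact MeasurableSet.iInter fun n => MeasurableSet.iInter fun _ => mmeasY b n (mset_meas _)
    · exact MeasurableSet.const _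
    · refine MeasurableSet.iInter fun n => MeasurableSet.iInter fun m => MeasurableSet.compl ?_
      exact measurableSet_eq_fun (mmeasX a n) (mmeasY b m)
  -- initial coupling
  have hEne : E.Nonempty := by
    rw [Set.nonempty_iff_ne_empty]
    rintro h
    apply hEpos
    rw [h]; simp
  obtain ⟨ω₀, hω₀⟩ := hEne
  have hp : p ∈ Set.Icc (-r) (D + r) := hω₀.2.2.1
  have hq : q ∈ Set.Icc (-r) (D + r) := hω₀.2.2.2.1
  have hpq : p ≠ q := by
    rintro rfl
    exact hω₀.2.2.2.2 t t' (hω₀.1.1.trans hω₀.2.1.1.symm)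
  have hinit : mGG B (β p) {β p} (β q) {β q} := by
    have hF : Measurable (fun ω : Str × Str => (msh t ω.1, msh t' ω.2)) :=
      ((mmeas_shift t).comp measurable_fst).prodMk ((mmeas_shift t').comp measurable_snd)
    refine ⟨(π.restrict E).map (fun ω => (msh t ω.1, msh t' ω.2)), ?_, ?_, ?_, ?_⟩
    · rw [Measure.map_map measurable_fst hF]
      have e : Prod.fst ∘ (fun ω : Str × Str => (msh t ω.1, msh t' ω.2)) = msh t ∘ Prod.fst := rfl
      rw [e, ← Measure.map_map (mmeas_shift t) measurable_fst]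
      conv_rhs => rw [← mPP_shift t]
      refine Measure.map_mono ?_ (mmeas_shift t)
      exact (Measure.map_mono Measure.restrict_le_self measurable_fst).trans h1
    · rw [Measure.map_map measurable_snd hF]
      have e : Prod.snd ∘ (fun ω : Str × Str => (msh t ω.1, msh t' ω.2)) = msh t' ∘ Prod.snd := rfl
      rw [e, ← Measure.map_map (mmeas_shift t') measurable_snd]
      conv_rhs => rw [← mPP_shift t']
      refine Measure.map_mono ?_ (mmeas_shift t')
      exact (Measure.map_mono Measure.restrict_le_self measurable_snd).trans h2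
    · rw [Measure.map_apply hF MeasurableSet.univ, Set.preimage_univ, Measure.restrict_apply_univ]
      exact pos_iff_ne_zero.2 hEpos
    · rw [ae_map_iff hF.aemeasurable (mGP_meas _ _ _ _ _)]
      filter_upwards [ae_restrict_mem hEmeas] with ω hω
      obtain ⟨⟨e1, e2⟩, ⟨e3, e4⟩, _, _, e5⟩ := hω
      simp only at e1 e2 e3 e4
      have k1 : ∀ n, β p + SS n (msh t ω.1) = a + SS (t + n) ω.1 := by
        intro n; rw [mSS_add, ← e1, add_assoc]
      have k2 : ∀ n, β q + SS n (msh t' ω.2) = b + SS (t' + n) ω.2 := by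
        intro n; rw [mSS_add, ← e3, add_assoc]
      refine ⟨fun n m => ?_, fun n => ?_, fun n => ?_⟩
      · simp only [k1, k2]; exact e5 _ _
      · simp only
        cases n with
        | zero => rw [mSS_zero, add_zero]; exact fun _ => Set.mem_singleton _
        | succ n =>
          rw [k1]
          exact fun h => absurd h (e2 _ (by omega))
      · simp only
        cases n with
        | zero => rw [mSS_zero, add_zero]; exact fun _ => Set.mem_singleton _
        | succ n =>
          rw [k2]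
          exact fun h => absurd h (e4 _ (by omega))
  have hfin : ∃ (i : ℤ) (U V : Set Z3), mGG B (β i) U (β (i + r)) V := by
    rcases lt_or_gt_of_ne hpq with h | h
    · exact finish β D r p q hD hr hB hinj hup hdn hp hq h hinit
    · exact finish β D r q p hD hr hB hinj hup hdn hq hp h (mGG_symm hinit)
  obtain ⟨i, U, V, π', g1, g2, g3, g4⟩ := hfin
  refine ⟨i, π', g1, g2, g3, ?_⟩
  filter_upwards [g4] with ω hω
  rw [Set.disjoint_left]
  rintro _ ⟨n, rfl⟩ ⟨m, hm⟩
  exact hω.1 n m hm.symm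

end mv

end Pool.Agent.Y571.NX
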